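import Pool.Agent.H54.RH.Targets

/-!
# MP_def5ca_co, row K0 of the board `rhx_modules` (helper42): words and their codes
-/

set_option autoImplicit false

namespace Pool.Agent.H42.RHX

open Pool.Agent.H54.RH

theorem cd_succ {n : ℕ} (h : W (n + 1)) : cd h = (h 0).val + 3 * cd (fun t => h t.succ) := by
  unfold cd
  rw [Fin.sum_univ_succ, Finset.mul_sum]
  congr 1
  · simp
  · refine Finset.sum_congr rfl fun t _ => ?_
    rw [Fin.val_succ, pow_succ]
    ring

theorem cd_lt : ∀ (n : ℕ) (h : W n), cd h < 3 ^ n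
  | 0, h => by simp [cd]
  | n + 1, h => by
    have h1 := cd_lt n (fun t => h t.succ)
    have h2 := (h 0).isLt
    rw [cd_succ, pow_succ]
    omega

theorem dg_zero (c : ℕ) : dg c 0 = c % 3 := by simp [dg]

theorem dg_succ (c t : ℕ) : dg c (t + 1) = dg (c / 3) t := by
  unfold dg
  rw [Nat.div_div_eq_div_mul, pow_succ, mul_comm 3]

theorem dg_cd : ∀ (n : ℕ) (h : W n) (t : Fin n), dg (cd h) t.val = (h t).val
  | 0, _, t => t.elim0
  | n + 1, h, t => by
    have h2 := (h 0).isLt
    rw [cd_succ]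
    refine Fin.cases ?_ (fun t => ?_) t
    · rw [Fin.val_zero, dg_zero]
      omega
    · rw [Fin.val_succ, dg_succ]
      have h3 : ((h 0).val + 3 * cd (fun t => h t.succ)) / 3 = cd (fun t => h t.succ) := by
        omega
      rw [h3, dg_cd n (fun t => h t.succ) t]

theorem dg_lt (c t : ℕ) : dg c t < 3 := Nat.mod_lt _ (by norm_num)

theorem cd_dg : ∀ (n c : ℕ), c < 3 ^ n → cd (fun t : Fin n => (⟨dg c t.val, dg_lt c t.val⟩ : Fin 3)) = c
  | 0, c, hc => by
    have h1 : c = 0 := by
      rw [pow_zero] at hc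
      omega
    rw [h1]
    simp [cd]
  | n + 1, c, hc => by
    have h1 : c / 3 < 3 ^ n := by
      rw [pow_succ] at hc
      omega
    have h2 := cd_dg n (c / 3) h1
    rw [cd_succ]
    have h3 : (fun t : Fin n => (⟨dg c t.succ.val, dg_lt c t.succ.val⟩ : Fin 3)) =
        fun t : Fin n => (⟨dg (c / 3) t.val, dg_lt (c / 3) t.val⟩ : Fin 3) := by
      funext t
      refine Fin.ext ?_
      show dg c t.succ.val = dg (c / 3) t.val
      rw [Fin.val_succ, dg_succ]
    rw [h3, h2]
    show dg c (0 : Fin (n + 1)).val + 3 * (c / 3) = c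
    rw [Fin.val_zero, dg_zero]
    omega

theorem cd_inj (n : ℕ) : Function.Injective (cd (n := n)) := by
  intro g h hgh
  funext t
  refine Fin.ext ?_
  rw [← dg_cd n g t, ← dg_cd n h t, hgh]

theorem cd_split {n : ℕ} (f : W n) {k l : Fin n} (hkl : l ≠ k) :
    cd f = (f k).val * 3 ^ k.val + ((f l).val * 3 ^ l.val +
      ∑ t ∈ (Finset.univ.erase k).erase l, (f t).val * 3 ^ t.val) := by
  unfold cd
  rw [Finset.add_sum_erase (Finset.univ.erase k) (fun t => (f t).val * 3 ^ t.val)
      (Finset.mem_erase.mpr ⟨hkl, Finset.mem_univ l⟩),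
    Finset.add_sum_erase Finset.univ (fun t => (f t).val * 3 ^ t.val) (Finset.mem_univ k)]

theorem cd_sw {n : ℕ} (h : W n) (k l : Fin n) : cd (sw h k l) = csw (cd h) k.val l.val := by
  unfold csw
  rw [dg_cd n h k, dg_cd n h l]
  by_cases hkl : l = k
  · subst hkl
    have h1 : sw h l l = h := by
      funext t
      unfold sw
      split_ifs with h2
      · rw [h2]
      · rfl
    rw [h1]
    omega
  · have h1 := cd_split h hkl
    have h2 := cd_split (sw h k l) hkl
    have h3 : sw h k l k = h l := by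
      unfold sw
      rw [if_pos rfl]
    have h4 : sw h k l l = h k := by
      unfold sw
      rw [if_neg hkl, if_pos rfl]
    have h5 : ∑ t ∈ (Finset.univ.erase k).erase l, (sw h k l t).val * 3 ^ t.val =
        ∑ t ∈ (Finset.univ.erase k).erase l, (h t).val * 3 ^ t.val := by
      refine Finset.sum_congr rfl fun t ht => ?_
      rw [Finset.mem_erase, Finset.mem_erase] at ht
      have h6 : sw h k l t = h t := by
        unfold sw
        rw [if_neg ht.2.1, if_neg ht.1]
      rw [h6]
    rw [h3, h4, h5] at h2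
    omega

theorem pf_K0 : T_K0 := fun n h =>
  ⟨cd_lt n h, dg_cd n h, fun c hc => ⟨_, cd_dg n c hc⟩, cd_inj n, cd_sw h⟩

end Pool.Agent.H42.RHX
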