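import Pool.Agent.H54.RH.Targets

/-!
# MP_def5ca_co, row K1 of the board `rhx_modules` (helper42): the first check
-/

set_option autoImplicit false

namespace Pool.Agent.H42.RHX

open Pool.Agent.H54.RH

theorem len_filter (p : ℕ → Bool) : ∀ n : ℕ,
    ((List.range n).filter p).length = ∑ t : Fin n, if p t.val = true then 1 else 0
  | 0 => by simp
  | n + 1 => by
    rw [List.range_succ, List.filter_append, List.length_append, Fin.sum_univ_castSucc,
      len_filter p n]
    congr 1
    rw [Fin.val_last]
    by_cases h : p n = true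
    · rw [if_pos h, List.filter_cons_of_pos h]
      simp
    · rw [if_neg h, List.filter_cons_of_neg h]
      simp

theorem cnt_eq (h0 : T_K0) {n : ℕ} (h : W n) (e : Fin 3) :
    cnt n (cd h) e.val = (Finset.univ.filter fun t => h t = e).card := by
  unfold cnt
  rw [len_filter, Finset.card_filter]
  refine Finset.sum_congr rfl fun t _ => ?_
  rw [(h0 n h).2.1 t]
  by_cases ht : h t = e
  · rw [if_pos ht, ht, if_pos (by simp)]
  · rw [if_neg ht, if_neg]
    intro h1
    exact ht (Fin.ext (by simpa using h1))

theorem pf_K1 (h0 : T_K0) : T_K1 := by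
  intro n b m hc h hh
  unfold ck1 at hc
  rw [List.all_eq_true] at hc
  unfold MS at hh
  rw [Finset.mem_filter] at hh
  have h1 : cd h ∈ codes n m := by
    unfold codes
    rw [List.mem_filter, List.mem_range]
    exact ⟨(h0 n h).1, hh.2⟩
  have h2 := hc _ h1
  rw [Bool.and_eq_true, beq_iff_eq, beq_iff_eq] at h2
  have h3 := cnt_eq h0 h 1
  have h4 := cnt_eq h0 h 2
  exact ⟨h3.symm.trans h2.1, h4.symm.trans h2.2⟩

end Pool.Agent.H42.RHX
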